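import Pool.Agent.H4.FV.OddT

/-!
# Loose configurations (project FV of helper4, part ODD, by helper806)
-/

set_option autoImplicit false

namespace Pool.Agent.H806.FV

open Pool.Agent.R620.GG
open Pool.Agent.H4.FV.Odd

section basic

variable {p : ℕ} [Fact p.Prime] {A : Type} [NonUnitalNonAssocRing A] [Module (ZMod p) A]

lemma smul_mul' (c : ZMod p) (x y : A) : (c • x) * y = c • (x * y) := by
  have h : ∀ z : A, c • z = c.val • z := fun z => by
    rw [← Nat.cast_smul_eq_nsmul (ZMod p), ZMod.natCast_zmod_val]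
  rw [h, h, smul_mul_assoc]

lemma mul_smul' (c : ZMod p) (x y : A) : x * (c • y) = c • (x * y) := by
  have h : ∀ z : A, c • z = c.val • z := fun z => by
    rw [← Nat.cast_smul_eq_nsmul (ZMod p), ZMod.natCast_zmod_val]
  rw [h, h, mul_smul_comm]

omit [Fact p.Prime] [Module (ZMod p) A] in
lemma Ct.zero : Ct (0 : A) := fun x => zero_mul x

omit [Fact p.Prime] [Module (ZMod p) A] in
lemma Ct.add {x y : A} (hx : Ct x) (hy : Ct y) : Ct (x + y) := fun z => by
  rw [add_mul, hx, hy, add_zero]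

lemma Ct.smul {x : A} (hx : Ct x) (c : ZMod p) : Ct (c • x) := fun z => by
  rw [smul_mul', hx, smul_zero]

omit [Fact p.Prime] [Module (ZMod p) A] in
lemma Ct.neg {x : A} (hx : Ct x) : Ct (-x) := fun z => by
  rw [neg_mul, hx, neg_zero]

omit [Fact p.Prime] [Module (ZMod p) A] in
lemma Ct.sub {x y : A} (hx : Ct x) (hy : Ct y) : Ct (x - y) := fun z => by
  rw [sub_mul, hx, hy, sub_zero]

/-- a vertex is not central -/
lemma VtA.not_ct {v : A} (h : VtA p v) : ¬ Ct v := by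
  obtain ⟨y, z, _, _, h3⟩ := h
  have h4 := h3 ![1, 0, 0] ⟨0, one_ne_zero⟩
  have h5 : lcA p ![v, y, z] ![1, 0, 0] = v := by
    simp [lcA, Fin.sum_univ_three]
  rwa [h5] at h4

/-- vertices equivalent modulo the centre -/
lemma ev_of {r v : A} (hv : VtA p v) (h : EvA p r v) :
    ∃ c : ZMod p, c ≠ 0 ∧ Ct (r - c • v) ∧ Ct (v - c⁻¹ • r) := by
  obtain ⟨c, hc⟩ := h
  have h1 : lcA p (fun _ : Fin 1 => r) c = c 0 • r := by
    simp [lcA]
  rw [h1] at hc
  have h2 : c 0 ≠ 0 := by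
    intro h3
    rw [h3, zero_smul, add_zero] at hc
    exact VtA.not_ct hv hc
  have h4 : (c 0)⁻¹ • (v + c 0 • r) = r + (c 0)⁻¹ • v := by
    rw [smul_add, smul_smul, inv_mul_cancel₀ h2, one_smul, add_comm]
  refine ⟨-(c 0)⁻¹, neg_ne_zero.2 (inv_ne_zero h2), ?_, ?_⟩
  · rw [neg_smul, sub_neg_eq_add, ← h4]
    exact Ct.smul hc _
  · rw [inv_neg, inv_inv, neg_smul, sub_neg_eq_add]
    exact hc

lemma lc4 (v w a b : A) (c : Fin 4 → ZMod p) :
    lcA p ![v, w, a, b] c = c 0 • v + c 1 • w + c 2 • a + c 3 • b := by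
  simp [lcA, Fin.sum_univ_four]

/-- change of the vertices -/
lemma qd_conv (h2 : Alt2 A) {v w a b v1 w1 : A} {α β : ZMod p} (h : QdA p v w a b)
    (hv1 : VtA p v1) (hw1 : VtA p w1) (hα : α ≠ 0) (hβ : β ≠ 0) (hv : Ct (v1 - α • v))
    (hw : Ct (w1 - β • w)) : QdA p v1 w1 ((α * β) • a) b := by
  obtain ⟨_, _, k3, k4⟩ := h
  refine ⟨hv1, hw1, ?_, ?_⟩
  · intro c hc hcc
    refine k3 ![c 0 * α, c 1 * β, c 2 * (α * β), c 3] ?_ ?_
    · obtain ⟨i, hi⟩ := hc
      fin_cases i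
      · exact ⟨0, mul_ne_zero hi hα⟩
      · exact ⟨1, mul_ne_zero hi hβ⟩
      · exact ⟨2, mul_ne_zero hi (mul_ne_zero hα hβ)⟩
      · exact ⟨3, hi⟩
    · rw [lc4] at hcc ⊢
      have h5 := (Ct.sub (Ct.sub hcc (Ct.smul hv (c 0))) (Ct.smul hw (c 1)))
      have h6 : (c 0 * α) • v + (c 1 * β) • w + (c 2 * (α * β)) • a + c 3 • b =
          c 0 • v1 + c 1 • w1 + c 2 • (α * β) • a + c 3 • b - c 0 • (v1 - α • v) -
            c 1 • (w1 - β • w) := by
        rw [smul_sub, smul_sub, smul_smul, smul_smul, smul_smul]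
        abel
      show Ct ((c 0 * α) • v + (c 1 * β) • w + (c 2 * (α * β)) • a + c 3 • b)
      rw [h6]
      exact h5
  · have h5 : v1 * w1 = (α * β) • (v * w) := by
      have h6 : v1 * w1 = (α • v) * w1 := by
        have h7 := hv w1
        rw [sub_mul, sub_eq_zero] at h7
        exact h7
      have h8 : w1 * v = (β • w) * v := by
        have h7 := hw v
        rw [sub_mul, sub_eq_zero] at h7
        exact h7
      rw [h6, smul_mul', h2.anti v w1, h8, smul_mul', h2.anti w v, smul_neg, smul_neg, smul_neg,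
        neg_neg, smul_smul]
    rw [h5, smul_mul', ← smul_add, k4, smul_zero]

/-- exchange of the vertices -/
lemma qd_swap (h2 : Alt2 A) {v w a b : A} (h : QdA p v w a b) : QdA p w v (-a) b := by
  obtain ⟨k1, k2, k3, k4⟩ := h
  refine ⟨k2, k1, ?_, ?_⟩
  · intro c hc hcc
    refine k3 ![c 1, c 0, - c 2, c 3] ?_ ?_
    · obtain ⟨i, hi⟩ := hc
      fin_cases i
      · exact ⟨1, hi⟩
      · exact ⟨0, hi⟩
      · exact ⟨2, neg_ne_zero.2 hi⟩
      · exact ⟨3, hi⟩
    · rw [lc4] at hcc ⊢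
      show Ct (c 1 • v + c 0 • w + (-c 2) • a + c 3 • b)
      rw [smul_neg, ← neg_smul, add_comm (c 0 • w)] at hcc
      exact hcc
  · rw [h2.anti w v, neg_mul, ← neg_add, k4, neg_zero]

end basic

section span

variable {p : ℕ} [Fact p.Prime] {A : Type} [NonUnitalNonAssocRing A] [Module (ZMod p) A]
  {V : Type} {E : V → V → Prop} {D1 : Type}

/-- in the span of the generators at `P` and `Q` and of the centre -/
def InP (s : Bx V E D1 → A) (P : Finset V) (Q : Finset {q : V × V // E q.1 q.2}) (x : A) : Prop :=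
  ∃ c : Bx V E D1 →₀ ZMod p,
    Ct (x - Finsupp.linearCombination (ZMod p) s c) ∧
    (∀ d, c (Sum.inr d) = 0) ∧ (∀ v j, v ∉ P → c (Sum.inl (Sum.inl (v, j))) = 0) ∧
    ∀ q j, q ∉ Q → c (Sum.inl (Sum.inr (q, j))) = 0

variable {s : Bx V E D1 → A} {P : Finset V} {Q : Finset {q : V × V // E q.1 q.2}}

lemma InP.ct {x : A} (hx : Ct x) : InP (p := p) s P Q x :=
  ⟨0, by rwa [map_zero, sub_zero], fun _ => rfl, fun _ _ _ => rfl, fun _ _ _ => rfl⟩

lemma InP.add {x y : A} (hx : InP (p := p) s P Q x) (hy : InP (p := p) s P Q y) :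
    InP (p := p) s P Q (x + y) := by
  obtain ⟨c, h1, h2, h3, h4⟩ := hx
  obtain ⟨d, k1, k2, k3, k4⟩ := hy
  refine ⟨c + d, ?_, fun e => ?_, fun v j hv => ?_, fun q j hq => ?_⟩
  · have h5 : x + y - Finsupp.linearCombination (ZMod p) s (c + d) =
        (x - Finsupp.linearCombination (ZMod p) s c) +
          (y - Finsupp.linearCombination (ZMod p) s d) := by
      rw [map_add]
      abel
    rw [h5]
    exact Ct.add h1 k1
  · rw [Finsupp.add_apply, h2, k2, add_zero]
  · rw [Finsupp.add_apply, h3 v j hv, k3 v j hv, add_zero]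
  · rw [Finsupp.add_apply, h4 q j hq, k4 q j hq, add_zero]

lemma InP.smul {x : A} (hx : InP (p := p) s P Q x) (r : ZMod p) :
    InP (p := p) s P Q (r • x) := by
  obtain ⟨c, h1, h2, h3, h4⟩ := hx
  refine ⟨r • c, ?_, fun e => ?_, fun v j hv => ?_, fun q j hq => ?_⟩
  · rw [map_smul, ← smul_sub]
    exact Ct.smul h1 r
  · rw [Finsupp.smul_apply, h2, smul_zero]
  · rw [Finsupp.smul_apply, h3 v j hv, smul_zero]
  · rw [Finsupp.smul_apply, h4 q j hq, smul_zero]

lemma InP.sum {ι : Type} (t : Finset ι) (f : ι → A) (h : ∀ i ∈ t, InP (p := p) s P Q (f i)) :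
    InP (p := p) s P Q (∑ i ∈ t, f i) := by
  classical
  induction t using Finset.induction_on with
  | empty =>
    rw [Finset.sum_empty]
    exact InP.ct Ct.zero
  | insert i t hi ih =>
    rw [Finset.sum_insert hi]
    exact InP.add (h i (Finset.mem_insert_self _ _))
      (ih fun j hj => h j (Finset.mem_insert_of_mem hj))

/-- vertex generators -/
lemma InP.vert (v : V) (j : Fin 3) (hv : v ∈ P) :
    InP (p := p) s P Q (s (Sum.inl (Sum.inl (v, j)))) := by
  classical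
  refine ⟨Finsupp.single (Sum.inl (Sum.inl (v, j))) 1, ?_, fun e => ?_, fun v' j' hv' => ?_,
    fun q j' hq => ?_⟩
  · rw [Finsupp.linearCombination_single, one_smul, sub_self]
    exact Ct.zero
  · exact Finsupp.single_eq_of_ne fun h => by cases h
  · refine Finsupp.single_eq_of_ne fun h => ?_
    have h1 : (v', j') = (v, j) := Sum.inl.inj (Sum.inl.inj h)
    have h2 : v' = v := congrArg Prod.fst h1
    exact hv' (h2 ▸ hv)
  · exact Finsupp.single_eq_of_ne fun h => by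
      have h1 := Sum.inl.inj h
      cases h1

/-- edge generators -/
lemma InP.edge (q : {q : V × V // E q.1 q.2}) (j : Fin 2) (hq : q ∈ Q) :
    InP (p := p) s P Q (s (Sum.inl (Sum.inr (q, j)))) := by
  classical
  refine ⟨Finsupp.single (Sum.inl (Sum.inr (q, j))) 1, ?_, fun e => ?_, fun v' j' hv' => ?_,
    fun q' j' hq' => ?_⟩
  · rw [Finsupp.linearCombination_single, one_smul, sub_self]
    exact Ct.zero
  · exact Finsupp.single_eq_of_ne fun h => by cases h
  · exact Finsupp.single_eq_of_ne fun h => by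
      have h1 := Sum.inl.inj h
      cases h1
  · refine Finsupp.single_eq_of_ne fun h => ?_
    have h1 : (q', j') = (q, j) := Sum.inr.inj (Sum.inl.inj h)
    have h2 : q' = q := congrArg Prod.fst h1
    exact hq' (h2 ▸ hq)

lemma InP.insa {ι : Type} [Fintype ι] {u : ι → A} {x : A} (hu : ∀ i, InP (p := p) s P Q (u i))
    (hx : InSA p u x) : InP (p := p) s P Q x := by
  obtain ⟨c, hc⟩ := hx
  have h1 : x = (x + lcA p u c) + (-1 : ZMod p) • lcA p u c := by
    rw [neg_smul, one_smul]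
    abel
  rw [h1]
  exact InP.add (InP.ct hc) (InP.smul (InP.sum _ _ fun i _ => InP.smul (hu i) _) _)

lemma InP.of_ct {x y : A} {c : ZMod p} (h : Ct (x - c • y)) (hy : InP (p := p) s P Q y) :
    InP (p := p) s P Q x := by
  have h1 : x = (x - c • y) + c • y := by abel
  rw [h1]
  exact InP.add (InP.ct h) (InP.smul hy c)

end span

section main

variable {p : ℕ} [Fact p.Prime] {A : Type} [NonUnitalNonAssocRing A] [Module (ZMod p) A]
  {V : Type} {E : V → V → Prop} {D1 : Type} {ρ : V → A} {s : Bx V E D1 → A}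

lemma loose_tri (hF : FAA p A) (hR : Rep p E ρ)
    (hs : ∀ v, s (Sum.inl (Sum.inl (v, 0))) = ρ v)
    (ht : ∀ v, TriA p (s (Sum.inl (Sum.inl (v, 0)))) (s (Sum.inl (Sum.inl (v, 1))))
      (s (Sum.inl (Sum.inl (v, 2))))) {v y z : A} (h : TriA p v y z) :
    ∃ v0 : V, ∀ (P : Finset V) (Q : Finset {q : V × V // E q.1 q.2}), v0 ∈ P →
      InP (p := p) s P Q v ∧ InP (p := p) s P Q y ∧ InP (p := p) s P Q z := by
  have hv : VtA p v := ⟨y, z, h⟩
  obtain ⟨v0, h0⟩ := hR.all v hv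
  obtain ⟨c, hc, h1, h2⟩ := ev_of hv h0
  have key : ∀ x : A, v * x = 0 → s (Sum.inl (Sum.inl (v0, 0))) * x = 0 := by
    intro x hx
    have h3 := h1 x
    rw [sub_mul, smul_mul', hx, smul_zero, sub_zero] at h3
    rw [hs]
    exact h3
  refine ⟨v0, fun P Q hP => ?_⟩
  have h3 : ∀ x : A, v * x = 0 → InP (p := p) s P Q x := by
    intro x hx
    refine InP.insa (fun i => ?_) (hF.cen _ _ _ x (ht v0) (key x hx))
    fin_cases i
    · exact InP.vert v0 0 hP
    · exact InP.vert v0 1 hP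
    · exact InP.vert v0 2 hP
  refine ⟨InP.of_ct h2 ?_, h3 y h.1, h3 z h.2.1⟩
  rw [← hs]
  exact InP.vert v0 0 hP

lemma loose_qd (hA : Alt2 A) (hF : FAA p A) (hR : Rep p E ρ)
    (hs : ∀ v, s (Sum.inl (Sum.inl (v, 0))) = ρ v)
    (hq : ∀ q : {q : V × V // E q.1 q.2}, QdA p (s (Sum.inl (Sum.inl (q.1.1, 0))))
      (s (Sum.inl (Sum.inl (q.1.2, 0)))) (s (Sum.inl (Sum.inr (q, 0))))
      (s (Sum.inl (Sum.inr (q, 1))))) {v w a b : A} (h : QdA p v w a b) :
    ∃ q : {q : V × V // E q.1 q.2}, ∀ (P : Finset V) (Q : Finset {q : V × V // E q.1 q.2}),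
      q.1.1 ∈ P → q.1.2 ∈ P → q ∈ Q →
      InP (p := p) s P Q v ∧ InP (p := p) s P Q w ∧ InP (p := p) s P Q a ∧
        InP (p := p) s P Q b := by
  obtain ⟨v0, h0⟩ := hR.all v h.1
  obtain ⟨α, hα, h1, h2⟩ := ev_of h.1 h0
  obtain ⟨w0, k0⟩ := hR.all w h.2.1
  obtain ⟨β, hβ, k1, k2⟩ := ev_of h.2.1 k0
  have hQ := qd_conv hA h (hR.vt v0) (hR.vt w0) hα hβ h1 k1
  have hγ : α * β ≠ 0 := mul_ne_zero hα hβ
  rcases hR.e2 v0 w0 ⟨_, _, hQ⟩ with he | he
  · refine ⟨⟨(v0, w0), he⟩, fun P Q m1 m2 m3 => ?_⟩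
    have hq1 := hq ⟨(v0, w0), he⟩
    have hW := hF.wit _ _ _ _ ((α * β) • a) b hq1 (by
      show QdA p (s (Sum.inl (Sum.inl (v0, 0)))) (s (Sum.inl (Sum.inl (w0, 0)))) _ _
      rw [hs, hs]
      exact hQ)
    have hI : ∀ x : A, InSA p ![s (Sum.inl (Sum.inr (⟨(v0, w0), he⟩, 0))),
        s (Sum.inl (Sum.inr (⟨(v0, w0), he⟩, 1)))] x → InP (p := p) s P Q x := by
      intro x hx
      refine InP.insa (fun i => ?_) hx
      fin_cases i
      · exact InP.edge _ 0 m3
      · exact InP.edge _ 1 m3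
    refine ⟨InP.of_ct h2 ?_, InP.of_ct k2 ?_, ?_, hI b hW.2⟩
    · rw [← hs]
      exact InP.vert v0 0 m1
    · rw [← hs]
      exact InP.vert w0 0 m2
    · have h3 := InP.smul (hI _ hW.1) (α * β)⁻¹
      rw [smul_smul, inv_mul_cancel₀ hγ, one_smul] at h3
      exact h3
  · refine ⟨⟨(w0, v0), he⟩, fun P Q m1 m2 m3 => ?_⟩
    have hq1 := hq ⟨(w0, v0), he⟩
    have hW := hF.wit _ _ _ _ (-((α * β) • a)) b hq1 (by
      show QdA p (s (Sum.inl (Sum.inl (w0, 0)))) (s (Sum.inl (Sum.inl (v0, 0)))) _ _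
      rw [hs, hs]
      exact qd_swap hA hQ)
    have hI : ∀ x : A, InSA p ![s (Sum.inl (Sum.inr (⟨(w0, v0), he⟩, 0))),
        s (Sum.inl (Sum.inr (⟨(w0, v0), he⟩, 1)))] x → InP (p := p) s P Q x := by
      intro x hx
      refine InP.insa (fun i => ?_) hx
      fin_cases i
      · exact InP.edge _ 0 m3
      · exact InP.edge _ 1 m3
    refine ⟨InP.of_ct h2 ?_, InP.of_ct k2 ?_, ?_, hI b hW.2⟩
    · rw [← hs]
      exact InP.vert v0 0 m2
    · rw [← hs]
      exact InP.vert w0 0 m1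
    · have h3 := InP.smul (hI _ hW.1) (-(α * β)⁻¹)
      rw [neg_smul, smul_neg, neg_neg, smul_smul, inv_mul_cancel₀ hγ, one_smul] at h3
      exact h3

end main

theorem loose : S_loose := by
  classical
  intro p _ _ A _ _ V E D1 ρ s hA hF hR hs ht hq n m v y z v' w' a b h1 h2
  choose f hf using fun i => loose_tri hF hR hs ht (h1 i)
  choose g hg using fun k => loose_qd hA hF hR hs hq (h2 k)
  obtain ⟨P, hP⟩ : ∃ P : Finset V, P = Finset.univ.image f ∪
      (Finset.univ.image (fun k => (g k).1.1) ∪ Finset.univ.image (fun k => (g k).1.2)) :=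
    ⟨_, rfl⟩
  have p1 : ∀ i, f i ∈ P := fun i => by
    rw [hP]
    exact Finset.mem_union_left _ (Finset.mem_image_of_mem f (Finset.mem_univ i))
  have p2 : ∀ k, (g k).1.1 ∈ P := fun k => by
    rw [hP]
    exact Finset.mem_union_right _ (Finset.mem_union_left _
      (Finset.mem_image_of_mem (fun k => (g k).1.1) (Finset.mem_univ k)))
  have p3 : ∀ k, (g k).1.2 ∈ P := fun k => by
    rw [hP]
    exact Finset.mem_union_right _ (Finset.mem_union_right _
      (Finset.mem_image_of_mem (fun k => (g k).1.2) (Finset.mem_univ k)))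
  have p4 : ∀ k, g k ∈ Finset.univ.image g := fun k =>
    Finset.mem_image_of_mem g (Finset.mem_univ k)
  refine ⟨P, Finset.univ.image g, ?_, ?_⟩
  · intro q hq'
    obtain ⟨k, _, rfl⟩ := Finset.mem_image.1 hq'
    exact ⟨p2 k, p3 k⟩
  · rintro (⟨i, j⟩ | ⟨k, j⟩)
    · have h3 := hf i P (Finset.univ.image g) (p1 i)
      fin_cases j
      · exact h3.1
      · exact h3.2.1
      · exact h3.2.2
    · have h3 := hg k P (Finset.univ.image g) (p2 k) (p3 k) (p4 k)
      fin_cases j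
      · exact h3.1
      · exact h3.2.1
      · exact h3.2.2.1
      · exact h3.2.2.2

end Pool.Agent.H806.FV
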